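import Pool.Agent.GRA.StmtsM
import Pool.Agent.Helper64_FR.DERP

/-!
# Representations with small weights: inner products of the `q_ab` (row M2B)
-/

open MeasureTheory Matrix Finset
open scoped ComplexConjugate

namespace Pool.Agent.GRA.H09

open Pool.Agent.Helper64_FR Pool.Agent.UTR

variable {n : ℕ}

/-! ### Matrix units and the derived representation -/

section Der

variable {ρ : URep n} {D : Matrix (Fin n) (Fin n) ℂ →ₗ[ℂ] (ρ.Sp →L[ℂ] ρ.Sp)}

theorem EE_mul (i j k l : Fin n) : (EE i j : Matrix (Fin n) (Fin n) ℂ) * EE k l =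
    if j = k then EE i l else 0 := by
  unfold EE
  by_cases h : j = k
  · subst h
    rw [if_pos rfl, Matrix.single_mul_single_same, mul_one]
  · rw [if_neg h, Matrix.single_mul_single_of_ne _ _ _ _ h]

theorem star_EE (i j : Fin n) : star (EE i j : Matrix (Fin n) (Fin n) ℂ) = EE j i := by
  unfold EE
  rw [Matrix.star_eq_conjTranspose, Matrix.conjTranspose_single, star_one]

theorem star_D (hD : IsDer ρ D) (i j : Fin n) : star (D (EE i j)) = D (EE j i) := by
  rw [hD.star_eq, star_EE]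

theorem inner_D (hD : IsDer ρ D) (i j : Fin n) (x y : ρ.Sp) :
    (inner ℂ (D (EE i j) x) y : ℂ) = inner ℂ x (D (EE j i) y) := by
  rw [← star_D hD i j, ContinuousLinearMap.star_eq_adjoint,
    ContinuousLinearMap.adjoint_inner_right]

theorem comm_app (hD : IsDer ρ D) (i j k l : Fin n) (x : ρ.Sp) :
    D (EE i j) (D (EE k l) x) = D (EE k l) (D (EE i j) x) +
      ((if j = k then D (EE i l) x else 0) - (if l = i then D (EE k j) x else 0)) := by
  have h := congrArg (fun T : ρ.Sp →L[ℂ] ρ.Sp => T x) (hD.comm_eq (EE i j) (EE k l))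
  have h1 : D (EE i j) (D (EE k l) x) - D (EE k l) (D (EE i j) x) =
      D (EE i j * EE k l - EE k l * EE i j) x := h
  rw [EE_mul, EE_mul, map_sub] at h1
  have h2 : D (if j = k then (EE i l : Matrix (Fin n) (Fin n) ℂ) else 0) x =
      if j = k then D (EE i l) x else 0 := by
    split_ifs
    · rfl
    · rw [map_zero]; rfl
  have h3 : D (if l = i then (EE k j : Matrix (Fin n) (Fin n) ℂ) else 0) x =
      if l = i then D (EE k j) x else 0 := by
    split_ifs
    · rfl
    · rw [map_zero]; rfl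
  rw [_root_.sub_apply, h2, h3] at h1
  rw [← h1]
  abel

/-- different letters: the operators commute -/
theorem comm4 (hD : IsDer ρ D) {i j k l : Fin n} (h1 : j ≠ k) (h2 : l ≠ i) (x : ρ.Sp) :
    D (EE i j) (D (EE k l) x) = D (EE k l) (D (EE i j) x) := by
  rw [comm_app hD, if_neg h1, if_neg h2, sub_zero, add_zero]

theorem Kp_app (a b : Fin n) (x : ρ.Sp) : Kp ρ D a b x = D (EE a b) (D (EE b a) x) := rfl

/-- on a torus invariant vector `E F = F E` -/
theorem EF (hD : IsDer ρ D) {v : ρ.Sp} (hv : wt ρ D (fun _ => 0) v) (a b : Fin n) :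
    D (EE a b) (D (EE b a) v) = D (EE b a) (D (EE a b) v) := by
  rw [comm_app hD, if_pos rfl, if_pos rfl, hv a, hv b]
  simp

/-- `F² E² v = 24 v` if `E F v = 6 v` and `v` is torus invariant -/
theorem FFEE (hD : IsDer ρ D) (hM : MSHStmt) {v : ρ.Sp} (hv : wt ρ D (fun _ => 0) v)
    {c d : Fin n} (hcd : c ≠ d) (hK : D (EE c d) (D (EE d c) v) = (6 : ℂ) • v) :
    D (EE d c) (D (EE d c) (D (EE c d) (D (EE c d) v))) = (24 : ℂ) • v := by
  have hw := (hM n ρ D hD).1 (fun _ => 0) v c d hv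
  have hc := hw c
  have hd := hw d
  simp only [if_true, if_neg hcd, if_neg hcd.symm] at hc hd
  have h1 : D (EE d c) (D (EE c d) v) = (6 : ℂ) • v := by rw [← EF hD hv c d, hK]
  have h2 : D (EE d c) (D (EE c d) (D (EE c d) v)) = (4 : ℂ) • D (EE c d) v := by
    rw [comm_app hD d c c d, if_pos rfl, if_pos rfl, h1, hc, hd, map_smul, ← sub_smul,
      ← add_smul]
    norm_num
  rw [h2, map_smul, h1, smul_smul]
  norm_num

theorem tinvKp (hD : IsDer ρ D) (hM : MSHStmt) {f : ρ.Sp} (hf : TInv ρ f) (a b : Fin n) :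
    TInv ρ (Kp ρ D a b f) := by
  have h0 := ((hM n ρ D hD).2.1 f).1 hf
  refine ((hM n ρ D hD).2.1 _).2 ?_
  have h1 := (hM n ρ D hD).1 _ _ a b ((hM n ρ D hD).1 _ _ b a h0)
  intro i
  have h2 := h1 i
  rw [Kp_app, h2]
  refine congrArg (fun z : ℝ => (z : ℂ) • D (EE a b) (D (EE b a) f)) ?_
  ring

theorem sKp (hD : IsDer ρ D) (hM : MSHStmt) {f : ρ.Sp} (τ : Equiv.Perm (Fin n))
    (hf : ρ.op (pm τ) f = f) (a b : Fin n) :
    ρ.op (pm τ) (Kp ρ D a b f) = Kp ρ D (τ a) (τ b) f := by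
  rw [Kp_app, Kp_app, (hM n ρ D hD).2.2.1, (hM n ρ D hD).2.2.1, hf]

theorem sq (hD : IsDer ρ D) (hM : MSHStmt) {f : ρ.Sp} (τ : Equiv.Perm (Fin n))
    (hf : ρ.op (pm τ) f = f) (a b : Fin n) :
    ρ.op (pm τ) (f - ρ.P {a, b} f) = f - ρ.P {τ a, τ b} f := by
  rw [map_sub, (hM n ρ D hD).2.2.2.1, hf]
  have : ({a, b} : Finset (Fin n)).map τ.toEmbedding = {τ a, τ b} := by
    rw [Finset.map_insert, Finset.map_singleton]
    rfl
  rw [this]

theorem inner_op_op (ρ : URep n) (g : UU n) (x y : ρ.Sp) :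
    (inner ℂ (ρ.op g x) (ρ.op g y) : ℂ) = inner ℂ x y := by
  rw [FIX.inner_op_left]
  have : ρ.op g⁻¹ (ρ.op g y) = y := by
    have h := FIX.op_mul ρ g⁻¹ g
    rw [inv_mul_cancel, FIX.op_one] at h
    exact (congrArg (fun T : ρ.Sp →L[ℂ] ρ.Sp => T y) h).symm
  rw [this]

theorem D_P (hD : IsDer ρ D) (B : Finset (Fin n)) (i j : Fin n) (hi : i ∈ B) (hj : j ∈ B)
    (x : ρ.Sp) : D (EE i j) (ρ.P B x) = 0 := by
  have h := DERP_proof FIX_proof n ρ D hD B i j hi hj
  exact congrArg (fun T : ρ.Sp →L[ℂ] ρ.Sp => T x) h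

theorem Kp_P (hD : IsDer ρ D) (a b : Fin n) (x : ρ.Sp) : Kp ρ D a b (ρ.P {a, b} x) = 0 := by
  rw [Kp_app, D_P hD {a, b} b a (by simp) (by simp), map_zero]

/-- `P_B` is symmetric -/
theorem inner_P (ρ : URep n) (B : Finset (Fin n)) (x y : ρ.Sp) :
    (inner ℂ (ρ.P B x) y : ℂ) = inner ℂ x (ρ.P B y) := by
  have h := FIX.P_star ρ B
  rw [ContinuousLinearMap.star_eq_adjoint] at h
  conv_lhs => rw [← h]
  rw [ContinuousLinearMap.adjoint_inner_left]

theorem P_P (ρ : URep n) (B : Finset (Fin n)) (x : ρ.Sp) : ρ.P B (ρ.P B x) = ρ.P B x := by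
  have h := FIX.P_idem ρ B
  exact congrArg (fun T : ρ.Sp →L[ℂ] ρ.Sp => T x) h

theorem inner_q_f (ρ : URep n) (B : Finset (Fin n)) (f : ρ.Sp) :
    (inner ℂ (f - ρ.P B f) f : ℂ) = ((‖f - ρ.P B f‖ ^ 2 : ℝ) : ℂ) := by
  have h1 : (inner ℂ (f - ρ.P B f) (ρ.P B f) : ℂ) = 0 := by
    rw [inner_sub_left, inner_P, P_P, sub_self]
  have h2 : (inner ℂ (f - ρ.P B f) f : ℂ) = inner ℂ (f - ρ.P B f) (f - ρ.P B f) := by
    rw [inner_sub_right _ f, h1, sub_zero]
  rw [h2, inner_self_eq_norm_sq_to_K]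
  simp

/-- the weight `4 (e_a - e_b)` -/
theorem E4 (hD : IsDer ρ D) (hM : MSHStmt) (hW : W2 ρ D) {g : ρ.Sp} (hg : TInv ρ g)
    {a b : Fin n} (hab : a ≠ b) :
    D (EE a b) (D (EE a b) (D (EE a b) (D (EE a b) g))) = 0 := by
  by_contra hne
  have h0 := ((hM n ρ D hD).2.1 g).1 hg
  have H := (hM n ρ D hD).1
  have h1 := H _ _ a b (H _ _ a b (H _ _ a b (H _ _ a b h0)))
  have h2 := hW _ _ hne h1
  have h3 : ∀ i : Fin n, (if i = a then (4 : ℝ) else 0) ≤
      max (0 + (if i = a then (1 : ℝ) else 0) - (if i = b then (1 : ℝ) else 0) +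
        (if i = a then (1 : ℝ) else 0) - (if i = b then (1 : ℝ) else 0) +
        (if i = a then (1 : ℝ) else 0) - (if i = b then (1 : ℝ) else 0) +
        (if i = a then (1 : ℝ) else 0) - (if i = b then (1 : ℝ) else 0)) 0 := by
    intro i
    by_cases hi : i = a
    · subst hi
      rw [if_pos rfl, if_pos rfl, if_neg hab]
      exact le_max_of_le_left (by norm_num)
    · rw [if_neg hi]
      exact le_max_right _ _
  have h4 := Finset.sum_le_sum fun i (_ : i ∈ Finset.univ) => h3 i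
  rw [Finset.sum_ite_eq' Finset.univ a, if_pos (Finset.mem_univ a)] at h4
  linarith

/-- the weight `2 (e_a - e_b + e_c - e_d)` -/
theorem E22 (hD : IsDer ρ D) (hM : MSHStmt) (hW : W2 ρ D) {g : ρ.Sp} (hg : TInv ρ g)
    {a b c d : Fin n} (hab : a ≠ b) (hac : a ≠ c) (had : a ≠ d) (hcb : c ≠ b) (hcd : c ≠ d) :
    D (EE c d) (D (EE c d) (D (EE a b) (D (EE a b) g))) = 0 := by
  by_contra hne
  have h0 := ((hM n ρ D hD).2.1 g).1 hg
  have H := (hM n ρ D hD).1
  have h1 := H _ _ c d (H _ _ c d (H _ _ a b (H _ _ a b h0)))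
  have h2 := hW _ _ hne h1
  have h3 : ∀ i : Fin n, (if i = a then (2 : ℝ) else 0) + (if i = c then (2 : ℝ) else 0) ≤
      max (0 + (if i = a then (1 : ℝ) else 0) - (if i = b then (1 : ℝ) else 0) +
        (if i = a then (1 : ℝ) else 0) - (if i = b then (1 : ℝ) else 0) +
        (if i = c then (1 : ℝ) else 0) - (if i = d then (1 : ℝ) else 0) +
        (if i = c then (1 : ℝ) else 0) - (if i = d then (1 : ℝ) else 0)) 0 := by
    intro i
    by_cases hi : i = a
    · subst hi
      rw [if_pos rfl, if_pos rfl, if_neg hab, if_neg hac, if_neg hac, if_neg had]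
      exact le_max_of_le_left (by norm_num)
    · by_cases hc : i = c
      · subst hc
        rw [if_neg hi, if_neg hi, if_pos rfl, if_pos rfl, if_neg hcb, if_neg hcd]
        exact le_max_of_le_left (by norm_num)
      · rw [if_neg hi, if_neg hc, add_zero]
        exact le_max_right _ _
  have h4 := Finset.sum_le_sum fun i (_ : i ∈ Finset.univ) => h3 i
  rw [Finset.sum_add_distrib, Finset.sum_ite_eq' Finset.univ a, Finset.sum_ite_eq' Finset.univ c,
    if_pos (Finset.mem_univ a), if_pos (Finset.mem_univ c)] at h4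
  linarith

/-- disjoint pairs -/
theorem KK (hD : IsDer ρ D) (hM : MSHStmt) (h6 : MK6Stmt) (hW : W2 ρ D) {f : ρ.Sp}
    (hf : TInv ρ f) (hs : SI ρ f)
    (hK : ∀ a b : Fin n, a ≠ b → Kp ρ D a b f = (6 : ℂ) • (f - ρ.P {a, b} f))
    {a b c d : Fin n} (hab : a ≠ b) (hac : a ≠ c) (had : a ≠ d) (hbc : b ≠ c) (hbd : b ≠ d)
    (hcd : c ≠ d) : Kp ρ D a b (Kp ρ D c d f) = 0 := by
  have hg := tinvKp hD hM hf c d
  have hsg : ρ.op (pm (Equiv.swap a b)) (Kp ρ D c d f) = Kp ρ D c d f := by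
    rw [sKp hD hM _ (hs _), Equiv.swap_apply_of_ne_of_ne hac.symm hbc.symm,
      Equiv.swap_apply_of_ne_of_ne had.symm hbd.symm]
  have h1 := (h6 n ρ D hD a b hab _ hg hsg).2 (E4 hD hM hW hg hab)
  -- the vector g'
  obtain ⟨g', hg'⟩ : ∃ g' : ρ.Sp, g' = Kp ρ D c d f - ρ.P {a, b} (Kp ρ D c d f) := ⟨_, rfl⟩
  rw [← hg'] at h1
  have hK1 : Kp ρ D a b g' = (6 : ℂ) • g' := by
    rw [hg', map_sub, Kp_P hD, sub_zero, h1, hg']
  have hK2 : Kp ρ D c d (Kp ρ D c d f) = (6 : ℂ) • Kp ρ D c d f := by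
    conv_lhs => rw [hK c d hcd, map_smul, map_sub, Kp_P hD, sub_zero]
  have hcom : ∀ x : ρ.Sp, Kp ρ D c d (Kp ρ D a b x) = Kp ρ D a b (Kp ρ D c d x) := by
    intro x
    rw [Kp_app, Kp_app, Kp_app, Kp_app]
    rw [comm4 hD (i := d) (j := c) (k := a) (l := b) hac.symm hbd,
      comm4 hD (i := d) (j := c) (k := b) (l := a) hbc.symm had,
      comm4 hD (i := c) (j := d) (k := a) (l := b) had.symm hbc,
      comm4 hD (i := c) (j := d) (k := b) (l := a) hbd.symm hac]
  have hK3 : Kp ρ D c d g' = (6 : ℂ) • g' := by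
    have e1 : g' = (1 / 6 : ℂ) • Kp ρ D a b (Kp ρ D c d f) := by
      rw [h1, smul_smul]
      norm_num
    conv_lhs => rw [e1, map_smul, hcom, hK2, map_smul, smul_comm, ← e1]
  have htg : TInv ρ g' := by
    rw [hg']
    intro i h hh
    rw [map_sub, hg i h hh, ((hM n ρ D hD).2.2.2.2.2 _ hg).1 {a, b} i h hh]
  have h0 := ((hM n ρ D hD).2.1 g').1 htg
  have hz := E22 hD hM hW htg hab hac had hbc.symm hcd
  -- apply `E_dc²`
  have e2 : D (EE a b) (D (EE a b) ((24 : ℂ) • g')) = 0 := by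
    rw [← FFEE hD hM h0 hcd hK3]
    have hc1 : ∀ x : ρ.Sp, D (EE a b) (D (EE d c) x) = D (EE d c) (D (EE a b) x) :=
      fun x => comm4 hD hbd hac.symm x
    have hc2 : ∀ x : ρ.Sp, D (EE a b) (D (EE c d) x) = D (EE c d) (D (EE a b) x) :=
      fun x => comm4 hD hbc had.symm x
    simp only [hc1, hc2]
    rw [hz, map_zero, map_zero]
  have e3 : D (EE a b) (D (EE a b) g') = 0 := by
    rw [map_smul, map_smul] at e2
    exact (smul_eq_zero.1 e2).resolve_left (by norm_num)
  have e4 := FFEE hD hM h0 hab hK1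
  rw [e3, map_zero, map_zero] at e4
  have e5 : g' = 0 := (smul_eq_zero.1 e4.symm).resolve_left (by norm_num)
  rw [h1, e5, smul_zero]

end Der

/-- the sum over the pairs of an array with three values -/
theorem sum_pairs (a b : Fin n) (hab : a ≠ b) (F : Fin n → Fin n → ℂ) (A q : ℂ)
    (h0 : ∀ c, F c c = 0) (h1 : F a b = q) (h2 : F b a = q)
    (h3 : ∀ d, d ≠ a → d ≠ b → F a d = A ∧ F d a = A ∧ F b d = A ∧ F d b = A)
    (h4 : ∀ c d, c ≠ d → c ≠ a → c ≠ b → d ≠ a → d ≠ b → F c d = 0) :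
    ∑ c, ∑ d, F c d = 4 * ((n : ℂ) - 2) * A + 2 * q := by
  have key : ∀ c d, F c d = ((if c = a then A else 0) + (if c = b then A else 0) +
      ((if d = a then A else 0) + (if d = b then A else 0))) +
      (if c = a then (if d = a then -(2 * A) else 0) + (if d = b then q - 2 * A else 0) else 0) +
      (if c = b then (if d = b then -(2 * A) else 0) + (if d = a then q - 2 * A else 0)
        else 0) := by
    intro c d
    by_cases hca : c = a
    · subst hca
      rw [if_pos rfl, if_neg hab, if_pos rfl, if_neg hab, add_zero]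
      by_cases hda : d = c
      · subst hda
        rw [if_pos rfl, if_neg hab, if_pos rfl, if_neg hab, h0]
        ring
      · by_cases hdb : d = b
        · subst hdb
          rw [if_neg hda, if_pos rfl, if_neg hda, if_pos rfl, h1]
          ring
        · rw [if_neg hda, if_neg hdb, if_neg hda, if_neg hdb, (h3 d hda hdb).1]
          ring
    · by_cases hcb : c = b
      · subst hcb
        rw [if_neg hca, if_pos rfl, if_neg hca, if_pos rfl]
        by_cases hda : d = a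
        · subst hda
          rw [if_pos rfl, if_neg hab, if_neg hab, if_pos rfl, h2]
          ring
        · by_cases hdb : d = c
          · subst hdb
            rw [if_neg hda, if_pos rfl, if_pos rfl, if_neg hda, h0]
            ring
          · rw [if_neg hda, if_neg hdb, if_neg hdb, if_neg hda, (h3 d hda hdb).2.2.1]
            ring
      · rw [if_neg hca, if_neg hcb, if_neg hca, if_neg hcb]
        by_cases hda : d = a
        · subst hda
          rw [if_pos rfl, if_neg hab, (h3 c hca hcb).2.1]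
          ring
        · by_cases hdb : d = b
          · subst hdb
            rw [if_neg hda, if_pos rfl, (h3 c hca hcb).2.2.2]
            ring
          · rw [if_neg hda, if_neg hdb]
            by_cases hcd : c = d
            · subst hcd
              rw [h0]
              ring
            · rw [h4 c d hcd hca hcb hda hdb]
              ring
  simp only [key, Finset.sum_add_distrib, Finset.sum_ite_eq', Finset.mem_univ, if_true,
    Finset.sum_const, Finset.card_univ, Fintype.card_fin, nsmul_eq_mul, ← Finset.mul_sum]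
  have e1 : ∀ X : Fin n → ℂ, (∑ x : Fin n, ∑ x_1 : Fin n, if x = a then X x_1 else 0) =
      ∑ x_1, X x_1 := by
    intro X
    rw [Finset.sum_comm]
    refine Finset.sum_congr rfl fun i _ => ?_
    rw [Finset.sum_ite_eq', if_pos (Finset.mem_univ a)]
  have e2 : ∀ X : Fin n → ℂ, (∑ x : Fin n, ∑ x_1 : Fin n, if x = b then X x_1 else 0) =
      ∑ x_1, X x_1 := by
    intro X
    rw [Finset.sum_comm]
    refine Finset.sum_congr rfl fun i _ => ?_
    rw [Finset.sum_ite_eq', if_pos (Finset.mem_univ b)]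
  rw [e1, e2]
  simp only [Finset.sum_add_distrib, Finset.sum_ite_eq', Finset.mem_univ, if_true]
  ring

/-- row M2B -/
theorem m2b (hM : MSHStmt) (h6 : MK6Stmt) (hMCA : MCAStmt) (hA : M2AStmt) : M2BStmt := by
  intro n hn σ D C hN hD hC hW f hf hs hne
  obtain ⟨hCv, hA2⟩ := hA n (by omega) σ D C hN hD hC hW f hf hs hne
  have hK : ∀ a b : Fin n, a ≠ b → Kp σ D a b f = (6 : ℂ) • (f - σ.P {a, b} f) :=
    fun a b hab => (hA2 a b hab).1
  have hqK : ∀ a b : Fin n, a ≠ b → f - σ.P {a, b} f = (1 / 6 : ℂ) • Kp σ D a b f := by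
    intro a b hab
    rw [hK a b hab, smul_smul]
    norm_num
  -- disjoint pairs
  have hdis : ∀ a b c d : Fin n, a ≠ b → a ≠ c → a ≠ d → b ≠ c → b ≠ d → c ≠ d →
      (inner ℂ (f - σ.P {a, b} f) (f - σ.P {c, d} f) : ℂ) = 0 := by
    intro a b c d hab hac had hbc hbd hcd
    have h0 := ((hM n σ D hD).2.1 f).1 hf
    rw [hqK a b hab, hqK c d hcd, inner_smul_left, inner_smul_right, Kp_app, inner_D hD,
      inner_D hD]
    have hg := tinvKp hD hM hf c d
    have e1 : D (EE a b) (D (EE b a) (Kp σ D c d f)) = 0 :=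
      KK hD hM h6 hW hf hs hK hab hac had hbc hbd hcd
    rw [e1, inner_zero_right, mul_zero, mul_zero]
  refine ⟨?_, hdis⟩
  intro a b c hab hac hbc
  obtain ⟨A, hAd⟩ : ∃ A : ℂ, A = inner ℂ (f - σ.P {a, b} f) (f - σ.P {a, c} f) := ⟨_, rfl⟩
  rw [← hAd]
  -- invariance
  have hinv : ∀ (τ : Equiv.Perm (Fin n)) (x y z w : Fin n),
      (inner ℂ (f - σ.P {τ x, τ y} f) (f - σ.P {τ z, τ w} f) : ℂ) =
        inner ℂ (f - σ.P {x, y} f) (f - σ.P {z, w} f) := by
    intro τ x y z w
    rw [← sq hD hM τ (hs τ), ← sq hD hM τ (hs τ), inner_op_op]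
  have h3a : ∀ d, d ≠ a → d ≠ b →
      (inner ℂ (f - σ.P {a, b} f) (f - σ.P {a, d} f) : ℂ) = A := by
    intro d hda hdb
    have h := hinv (Equiv.swap c d) a b a c
    rw [Equiv.swap_apply_of_ne_of_ne hac hda.symm, Equiv.swap_apply_of_ne_of_ne hbc hdb.symm,
      Equiv.swap_apply_left, ← hAd] at h
    exact h
  have h3b : ∀ d, d ≠ a → d ≠ b →
      (inner ℂ (f - σ.P {a, b} f) (f - σ.P {b, d} f) : ℂ) = A := by
    intro d hda hdb
    have h := hinv (Equiv.swap a b) a b a d
    rw [Equiv.swap_apply_left, Equiv.swap_apply_right, Equiv.swap_apply_of_ne_of_ne hda hdb,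
      h3a d hda hdb, Finset.pair_comm b a] at h
    exact h
  obtain ⟨q, hqd⟩ : ∃ q : ℂ, q = ((‖f - σ.P {a, b} f‖ ^ 2 : ℝ) : ℂ) := ⟨_, rfl⟩
  have hqq : (inner ℂ (f - σ.P {a, b} f) (f - σ.P {a, b} f) : ℂ) = q := by
    rw [hqd, inner_self_eq_norm_sq_to_K]
    simp
  have hsum := sum_pairs a b hab
    (fun x y => if x = y then 0 else (inner ℂ (f - σ.P {a, b} f) (f - σ.P {x, y} f) : ℂ)) A q
    (fun x => if_pos rfl) (by rw [if_neg hab, hqq])
    (by rw [if_neg hab.symm, Finset.pair_comm b a, hqq])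
    (fun d hda hdb => ⟨by rw [if_neg hda.symm, h3a d hda hdb],
      by rw [if_neg hda, Finset.pair_comm d a, h3a d hda hdb],
      by rw [if_neg hdb.symm, h3b d hda hdb],
      by rw [if_neg hdb, Finset.pair_comm d b, h3b d hda hdb]⟩)
    (fun x y hxy hxa hxb hya hyb => by
      rw [if_neg hxy, hdis a b x y hab hxa.symm hya.symm hxb.symm hyb.symm hxy])
  -- the Casimir identity
  have hcas := (hMCA n σ D C hD hC f hf).1
  have hcas2 := congrArg (fun z : σ.Sp => (inner ℂ (f - σ.P {a, b} f) z : ℂ)) hcas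
  simp only [inner_sum, inner_smul_right, inner_q_f] at hcas2
  have hterm : ∀ x y : Fin n, (inner ℂ (f - σ.P {a, b} f)
      (if x = y then (0 : σ.Sp) else Kp σ D x y f) : ℂ) =
      6 * (if x = y then 0 else (inner ℂ (f - σ.P {a, b} f) (f - σ.P {x, y} f) : ℂ)) := by
    intro x y
    by_cases h : x = y
    · rw [if_pos h, if_pos h, inner_zero_right, mul_zero]
    · rw [if_neg h, if_neg h, hK x y h, inner_smul_right]
  simp only [hterm, ← Finset.mul_sum] at hcas2
  rw [hsum, ← hqd, hCv] at hcas2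
  have hn2 : ((n : ℂ) - 2) ≠ 0 := by
    intro h
    have h2 : (n : ℂ) = ((2 : ℕ) : ℂ) := by
      push_cast
      linear_combination h
    have h3 := Nat.cast_injective h2
    omega
  have hfin : (24 * ((n : ℂ) - 2)) * A = (24 * ((n : ℂ) - 2)) * (q / 6) := by
    push_cast at hcas2
    linear_combination hcas2
  have h24 : (24 * ((n : ℂ) - 2)) ≠ 0 := mul_ne_zero (by norm_num) hn2
  have := mul_left_cancel₀ h24 hfin
  rw [this, hqd]
  push_cast
  ring

end Pool.Agent.GRA.H09
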