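import Pool.Agent.Helper9_GRA.M2B
import Pool.Agent.Helper27_UTR.GEN

/-!
# `K >= 6 (1 - P)` on the invariant vectors (row MK6)
-/

open MeasureTheory Matrix Finset
open scoped ComplexConjugate

namespace Pool.Agent.GRA.H09

open Pool.Agent.Helper64_FR Pool.Agent.UTR

variable {n : ℕ}

/-- a symmetric operator whose eigenvalues are at least `c` is at least `c` -/
theorem sym_ge {E : Type*} [NormedAddCommGroup E] [InnerProductSpace ℂ E] [FiniteDimensional ℂ E]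
    (T : E →ₗ[ℂ] E) (hT : T.IsSymmetric) (c : ℝ)
    (h : ∀ (μ : ℝ) (v : E), v ≠ 0 → T v = (μ : ℂ) • v → c ≤ μ) (x : E) :
    c * ‖x‖ ^ 2 ≤ (inner ℂ (T x) x : ℂ).re := by
  have hb : ∀ i, T (hT.eigenvectorBasis rfl i) =
      ((hT.eigenvalues rfl i : ℝ) : ℂ) • hT.eigenvectorBasis rfl i :=
    fun i => hT.apply_eigenvectorBasis rfl i
  have h1 : ‖x‖ ^ 2 = ∑ i, ‖(inner ℂ (hT.eigenvectorBasis rfl i) x : ℂ)‖ ^ 2 :=
    ((hT.eigenvectorBasis rfl).sum_sq_norm_inner_right x).symm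
  have h2 : (inner ℂ (T x) x : ℂ) = ((∑ i, hT.eigenvalues rfl i *
      ‖(inner ℂ (hT.eigenvectorBasis rfl i) x : ℂ)‖ ^ 2 : ℝ) : ℂ) := by
    rw [← (hT.eigenvectorBasis rfl).sum_inner_mul_inner (T x) x, Complex.ofReal_sum]
    refine Finset.sum_congr rfl fun i _ => ?_
    have h3 : (inner ℂ (T x) (hT.eigenvectorBasis rfl i) : ℂ) =
        ((hT.eigenvalues rfl i : ℝ) : ℂ) * inner ℂ x (hT.eigenvectorBasis rfl i) := by
      rw [hT, hb, inner_smul_right]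
    rw [h3, mul_assoc, Complex.ofReal_mul, Complex.ofReal_pow,
      ← inner_conj_symm x (hT.eigenvectorBasis rfl i), Complex.conj_mul']
  rw [h2, Complex.ofReal_re, h1, Finset.mul_sum]
  refine Finset.sum_le_sum fun i _ => ?_
  refine mul_le_mul_of_nonneg_right ?_ (sq_nonneg _)
  refine h _ _ ?_ (hb i)
  intro h0
  have := (hT.eigenvectorBasis rfl).orthonormal.1 i
  rw [h0, norm_zero] at this
  exact zero_ne_one this

section Der

variable {ρ : URep n} {D : Matrix (Fin n) (Fin n) ℂ →ₗ[ℂ] (ρ.Sp →L[ℂ] ρ.Sp)}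

/-- `F E^{m+1} v`, one step: if `w` has `(E_bb - E_aa) w = -2m w` -/
theorem FE_step (hD : IsDer ρ D) {w : ρ.Sp} {a b : Fin n} (m : ℝ)
    (ha : D (EE a a) w = ((m : ℝ) : ℂ) • w) (hb : D (EE b b) w = ((-m : ℝ) : ℂ) • w) :
    D (EE b a) (D (EE a b) w) = D (EE a b) (D (EE b a) w) - ((2 * m : ℝ) : ℂ) • w := by
  rw [comm_app hD b a a b, if_pos rfl, if_pos rfl, ha, hb]
  push_cast
  module

/-- the weights of `E v`, `E² v`, `E³ v` -/
theorem wE (hD : IsDer ρ D) (hM : MSHStmt) {a b : Fin n} (hab : a ≠ b) {w : ρ.Sp} (m : ℝ)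
    {ν : Fin n → ℝ} (hw : wt ρ D ν w) (h1 : ν a = m) (h2 : ν b = -m) :
    ∃ ν' : Fin n → ℝ, wt ρ D ν' (D (EE a b) w) ∧ ν' a = m + 1 ∧ ν' b = -(m + 1) := by
  refine ⟨_, (hM n ρ D hD).1 ν w a b hw, ?_, ?_⟩
  · rw [if_pos rfl, if_neg hab, h1, sub_zero]
  · rw [if_pos rfl, if_neg hab.symm, h2, add_zero]
    ring

/-- `F E^m v` for a torus invariant `v`, `m = 1, 2, 3, 4` -/
theorem FEm (hD : IsDer ρ D) (hM : MSHStmt) {a b : Fin n} (hab : a ≠ b) {v : ρ.Sp}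
    (hv : wt ρ D (fun _ => 0) v) :
    D (EE b a) (D (EE a b) v) = Kp ρ D a b v ∧
    D (EE b a) (D (EE a b) (D (EE a b) v)) = D (EE a b) (Kp ρ D a b v - (2 : ℂ) • v) ∧
    D (EE b a) (D (EE a b) (D (EE a b) (D (EE a b) v))) =
      D (EE a b) (D (EE a b) (Kp ρ D a b v - (6 : ℂ) • v)) ∧
    D (EE b a) (D (EE a b) (D (EE a b) (D (EE a b) (D (EE a b) v)))) =
      D (EE a b) (D (EE a b) (D (EE a b) (Kp ρ D a b v - (12 : ℂ) • v))) := by
  have e1 : D (EE b a) (D (EE a b) v) = Kp ρ D a b v := (EF hD hv a b).symm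
  obtain ⟨ν1, w1, a1, b1⟩ := wE hD hM hab 0 hv rfl (by simp)
  obtain ⟨ν2, w2, a2, b2⟩ := wE hD hM hab _ w1 a1 b1
  obtain ⟨ν3, w3, a3, b3⟩ := wE hD hM hab _ w2 a2 b2
  have s1 := FE_step hD (0 + 1) (by rw [w1 a, a1]) (by rw [w1 b, b1])
  have s2 := FE_step hD (0 + 1 + 1) (by rw [w2 a, a2]) (by rw [w2 b, b2])
  have s3 := FE_step hD (0 + 1 + 1 + 1) (by rw [w3 a, a3]) (by rw [w3 b, b3])
  have e2 : D (EE b a) (D (EE a b) (D (EE a b) v)) =
      D (EE a b) (Kp ρ D a b v - (2 : ℂ) • v) := by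
    rw [s1, e1, map_sub, map_smul]
    congr 2
    push_cast
    norm_num
  have e3 : D (EE b a) (D (EE a b) (D (EE a b) (D (EE a b) v))) =
      D (EE a b) (D (EE a b) (Kp ρ D a b v - (6 : ℂ) • v)) := by
    rw [s2, e2]
    simp only [map_sub, map_smul]
    rw [sub_sub, ← add_smul]
    congr 2
    push_cast
    norm_num
  have e4 : D (EE b a) (D (EE a b) (D (EE a b) (D (EE a b) (D (EE a b) v)))) =
      D (EE a b) (D (EE a b) (D (EE a b) (Kp ρ D a b v - (12 : ℂ) • v))) := by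
    rw [s3, e3]
    simp only [map_sub, map_smul]
    rw [sub_sub, ← add_smul]
    congr 2
    push_cast
    norm_num
  exact ⟨e1, e2, e3, e4⟩

/-- `P E_ij = 0` -/
theorem P_D (hD : IsDer ρ D) (B : Finset (Fin n)) (i j : Fin n) (hi : i ∈ B) (hj : j ∈ B)
    (x : ρ.Sp) : ρ.P B (D (EE i j) x) = 0 := by
  refine ext_inner_left ℂ fun y => ?_
  rw [← inner_P, ← inner_D hD j i, D_P hD B j i hj hi, inner_zero_left, inner_zero_right]

theorem P_Kp (hD : IsDer ρ D) (a b : Fin n) (x : ρ.Sp) : ρ.P {a, b} (Kp ρ D a b x) = 0 := by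
  rw [Kp_app, P_D hD {a, b} a b (by simp) (by simp)]

/-- `K v = 0` implies `P v = v` -/
theorem K_zero (hD : IsDer ρ D) {a b : Fin n} {v : ρ.Sp} (hv : wt ρ D (fun _ => 0) v)
    (hK : Kp ρ D a b v = 0) : ρ.P {a, b} v = v := by
  have hF : D (EE b a) v = 0 := by
    have h : (inner ℂ (D (EE b a) v) (D (EE b a) v) : ℂ) = 0 := by
      rw [inner_D hD, ← Kp_app, hK, inner_zero_right]
    exact inner_self_eq_zero.1 h
  have hE : D (EE a b) v = 0 := by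
    have h : (inner ℂ (D (EE a b) v) (D (EE a b) v) : ℂ) = 0 := by
      rw [inner_D hD, ← EF hD hv a b, ← Kp_app, hK, inner_zero_right]
    exact inner_self_eq_zero.1 h
  refine FIX.P_inv ρ _ _ ?_
  refine H27.gen n ρ D hD {a, b} v ?_
  intro i hi j hj
  rcases Finset.mem_insert.1 hi with rfl | hi
  · rcases Finset.mem_insert.1 hj with rfl | hj
    · rw [hv]; simp
    · rw [Finset.mem_singleton.1 hj]; exact hE
  · rw [Finset.mem_singleton.1 hi]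
    rcases Finset.mem_insert.1 hj with rfl | hj
    · exact hF
    · rw [Finset.mem_singleton.1 hj, hv]; simp

/-- the torus invariant vectors fixed by `s_ab` -/
def VS (ρ : URep n) (a b : Fin n) : Submodule ℂ ρ.Sp where
  carrier := {v | TInv ρ v ∧ ρ.op (pm (Equiv.swap a b)) v = v}
  add_mem' := by
    intro x y hx hy
    refine ⟨(TI ρ).add_mem hx.1 hy.1, ?_⟩
    rw [map_add, hx.2, hy.2]
  zero_mem' := ⟨(TI ρ).zero_mem, map_zero _⟩
  smul_mem' := by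
    intro c x hx
    refine ⟨(TI ρ).smul_mem c hx.1, ?_⟩
    rw [map_smul, hx.2]

theorem VS_K (hD : IsDer ρ D) (hM : MSHStmt) {a b : Fin n} {v : ρ.Sp} (hv : v ∈ VS ρ a b) :
    Kp ρ D a b v ∈ VS ρ a b := by
  refine ⟨tinvKp hD hM hv.1 a b, ?_⟩
  have h0 := ((hM n ρ D hD).2.1 v).1 hv.1
  rw [sKp hD hM _ hv.2, Equiv.swap_apply_left, Equiv.swap_apply_right, Kp_app, Kp_app,
    EF hD h0 b a]

theorem VS_P (hD : IsDer ρ D) (hM : MSHStmt) {a b : Fin n} {v : ρ.Sp} (hv : v ∈ VS ρ a b) :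
    ρ.P {a, b} v ∈ VS ρ a b :=
  ⟨((hM n ρ D hD).2.2.2.2.2 _ hv.1).1 {a, b},
    FIX.P_apply_inv ρ {a, b} v _ ((hM n ρ D hD).2.2.2.2.1 a b)⟩

/-- eigenvalues `2` and `12` do not occur -/
theorem no_par (hD : IsDer ρ D) (hP : MPAStmt) {a b : Fin n} (hab : a ≠ b) {v : ρ.Sp}
    (hv : v ∈ VS ρ a b)
    (h : Kp ρ D a b v = (2 : ℂ) • v ∨ Kp ρ D a b v = (12 : ℂ) • v) : v = 0 := by
  have h1 := hP n ρ D hD a b hab v hv.1 h
  rw [hv.2] at h1
  have h2 : (2 : ℂ) • v = 0 := by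
    rw [two_smul]
    nth_rewrite 2 [h1]
    rw [add_neg_cancel]
  exact (smul_eq_zero.1 h2).resolve_left (by norm_num)

/-- the vectors of `VS` in the kernel of `P_ab` -/
def V0 (ρ : URep n) (a b : Fin n) : Submodule ℂ ρ.Sp where
  carrier := {v | v ∈ VS ρ a b ∧ ρ.P {a, b} v = 0}
  add_mem' := by
    intro x y hx hy
    refine ⟨(VS ρ a b).add_mem hx.1 hy.1, ?_⟩
    rw [map_add, hx.2, hy.2, add_zero]
  zero_mem' := ⟨(VS ρ a b).zero_mem, map_zero _⟩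
  smul_mem' := by
    intro c x hx
    refine ⟨(VS ρ a b).smul_mem c hx.1, ?_⟩
    rw [map_smul, hx.2, smul_zero]

/-- `K` on `V0` -/
noncomputable def KV (hD : IsDer ρ D) (hM : MSHStmt) (a b : Fin n) :
    V0 ρ a b →ₗ[ℂ] V0 ρ a b :=
  (Kp ρ D a b).toLinearMap.restrict (p := V0 ρ a b) (q := V0 ρ a b)
    (fun _ hv => ⟨VS_K hD hM hv.1, P_Kp hD a b _⟩)

theorem KV_sym (hD : IsDer ρ D) (hM : MSHStmt) (a b : Fin n) :
    LinearMap.IsSymmetric (𝕜 := ℂ) (E := V0 ρ a b) (KV hD hM a b) := by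
  intro x y
  show (inner ℂ (Kp ρ D a b (x : ρ.Sp)) (y : ρ.Sp) : ℂ) =
    inner ℂ (x : ρ.Sp) (Kp ρ D a b (y : ρ.Sp))
  rw [Kp_app, Kp_app, inner_D hD, inner_D hD]

theorem norm_step (hD : IsDer ρ D) {a b : Fin n} (w : ρ.Sp) (c : ℝ)
    (h : D (EE b a) (D (EE a b) w) = (c : ℂ) • w) : ‖D (EE a b) w‖ ^ 2 = c * ‖w‖ ^ 2 := by
  have h1 : (inner ℂ (D (EE a b) w) (D (EE a b) w) : ℂ) = (c : ℂ) * inner ℂ w w := by
    rw [inner_D hD, h, inner_smul_right]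
  rw [inner_self_eq_norm_sq_to_K, inner_self_eq_norm_sq_to_K] at h1
  have h2 : ((‖D (EE a b) w‖ ^ 2 : ℝ) : ℂ) = ((c * ‖w‖ ^ 2 : ℝ) : ℂ) := by
    push_cast
    exact h1
  exact_mod_cast h2

end Der

/-- row MK6 -/
theorem mk6 (hM : MSHStmt) (hP : MPAStmt) : MK6Stmt := by
  intro n ρ D hD a b hab f hf hs
  have hfV : f ∈ VS ρ a b := ⟨hf, hs⟩
  refine ⟨?_, ?_⟩
  · -- the lower bound
    obtain ⟨f', hf'⟩ : ∃ f', f' = f - ρ.P {a, b} f := ⟨_, rfl⟩
    have hf'V : f' ∈ V0 ρ a b := by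
      refine ⟨?_, ?_⟩
      · rw [hf']
        exact (VS ρ a b).sub_mem hfV (VS_P hD hM hfV)
      · rw [hf', map_sub, P_P, sub_self]
    have hK : Kp ρ D a b f' = Kp ρ D a b f := by
      rw [hf', map_sub, Kp_P hD, sub_zero]
    have h1 := sym_ge (E := V0 ρ a b) (KV hD hM a b) (KV_sym hD hM a b) 6 ?_ ⟨f', hf'V⟩
    · have h2 : (inner ℂ (KV hD hM a b ⟨f', hf'V⟩) (⟨f', hf'V⟩ : V0 ρ a b) : ℂ) =
          inner ℂ (Kp ρ D a b f') f' := rfl
      have h3 : ‖(⟨f', hf'V⟩ : V0 ρ a b)‖ = ‖f'‖ := rfl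
      have h4 : (inner ℂ (Kp ρ D a b f') f' : ℂ) = ((‖D (EE b a) f‖ ^ 2 : ℝ) : ℂ) := by
        have h5 : (inner ℂ (Kp ρ D a b f) (ρ.P {a, b} f) : ℂ) = 0 := by
          rw [← inner_P, P_Kp hD, inner_zero_left]
        rw [hK, hf', inner_sub_right, h5, sub_zero, Kp_app, inner_D hD,
          inner_self_eq_norm_sq_to_K]
        simp
      rw [h2, h3, h4, Complex.ofReal_re, hf'] at h1
      exact h1
    · intro μ v hv hvμ
      have hvV := v.2.1
      have hw : wt ρ D (fun _ => 0) (v : ρ.Sp) := ((hM n ρ D hD).2.1 _).1 hvV.1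
      have hvμ' : Kp ρ D a b (v : ρ.Sp) = (μ : ℂ) • (v : ρ.Sp) :=
        congrArg (fun z : V0 ρ a b => (z : ρ.Sp)) hvμ
      have hv0 : (v : ρ.Sp) ≠ 0 := fun h => hv (Subtype.ext h)
      have hvn : 0 < ‖(v : ρ.Sp)‖ ^ 2 := pow_pos (norm_pos_iff.2 hv0) 2
      obtain ⟨e1, e2, e3, -⟩ := FEm hD hM hab hw
      have n1 : ‖D (EE a b) (v : ρ.Sp)‖ ^ 2 = μ * ‖(v : ρ.Sp)‖ ^ 2 :=
        norm_step hD _ _ (by rw [e1, hvμ'])
      have n2 : ‖D (EE a b) (D (EE a b) (v : ρ.Sp))‖ ^ 2 =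
          (μ - 2) * ‖D (EE a b) (v : ρ.Sp)‖ ^ 2 :=
        norm_step hD _ _ (by
          rw [e2, hvμ', ← sub_smul, map_smul]
          push_cast
          rfl)
      have n3 : ‖D (EE a b) (D (EE a b) (D (EE a b) (v : ρ.Sp)))‖ ^ 2 =
          (μ - 6) * ‖D (EE a b) (D (EE a b) (v : ρ.Sp))‖ ^ 2 :=
        norm_step hD _ _ (by
          rw [e3, hvμ', ← sub_smul, map_smul, map_smul]
          push_cast
          rfl)
      have p1 : 0 ≤ μ := by
        by_contra hneg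
        have := mul_neg_of_neg_of_pos (not_le.1 hneg) hvn
        rw [← n1] at this
        exact absurd (sq_nonneg _) (not_le.2 this)
      have hμ0 : μ ≠ 0 := by
        intro h0
        rw [h0, Complex.ofReal_zero, zero_smul] at hvμ'
        have h5 := K_zero hD hw hvμ'
        rw [v.2.2] at h5
        exact hv0 h5.symm
      have hμ2 : μ ≠ 2 := by
        intro h2
        rw [h2, Complex.ofReal_ofNat] at hvμ'
        exact hv0 (no_par hD hP hab hvV (Or.inl hvμ'))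
      have p2 : 0 < μ := lt_of_le_of_ne p1 (Ne.symm hμ0)
      have q1 : 0 < ‖D (EE a b) (v : ρ.Sp)‖ ^ 2 := by
        rw [n1]
        exact mul_pos p2 hvn
      have p3 : 0 ≤ μ - 2 := by
        by_contra hneg
        have := mul_neg_of_neg_of_pos (not_le.1 hneg) q1
        rw [← n2] at this
        exact absurd (sq_nonneg _) (not_le.2 this)
      have p4 : 0 < μ - 2 := lt_of_le_of_ne p3 (fun h => hμ2 (by linarith))
      have q2 : 0 < ‖D (EE a b) (D (EE a b) (v : ρ.Sp))‖ ^ 2 := by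
        rw [n2]
        exact mul_pos p4 q1
      by_contra hneg
      have h6 : μ - 6 < 0 := by linarith [not_le.1 hneg]
      have := mul_neg_of_neg_of_pos h6 q2
      rw [← n3] at this
      exact absurd (sq_nonneg _) (not_le.2 this)
  · intro h4
    have hK : ∀ v ∈ VS ρ a b, Kp ρ D a b v ∈ VS ρ a b := fun v hv => VS_K hD hM hv
    have hw : ∀ v ∈ VS ρ a b, wt ρ D (fun _ => 0) v :=
      fun v hv => ((hM n ρ D hD).2.1 v).1 hv.1
    -- the vectors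
    obtain ⟨x1, hx1⟩ : ∃ x, x = Kp ρ D a b f - (12 : ℂ) • f := ⟨_, rfl⟩
    obtain ⟨x2, hx2⟩ : ∃ x, x = Kp ρ D a b x1 - (6 : ℂ) • x1 := ⟨_, rfl⟩
    obtain ⟨x3, hx3⟩ : ∃ x, x = Kp ρ D a b x2 - (2 : ℂ) • x2 := ⟨_, rfl⟩
    have m1 : x1 ∈ VS ρ a b := by
      rw [hx1]
      exact (VS ρ a b).sub_mem (hK f hfV) ((VS ρ a b).smul_mem _ hfV)
    have m2 : x2 ∈ VS ρ a b := by
      rw [hx2]
      exact (VS ρ a b).sub_mem (hK _ m1) ((VS ρ a b).smul_mem _ m1)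
    have m3 : x3 ∈ VS ρ a b := by
      rw [hx3]
      exact (VS ρ a b).sub_mem (hK _ m2) ((VS ρ a b).smul_mem _ m2)
    have f4 := (FEm hD hM hab (hw f hfV)).2.2.2
    rw [h4, map_zero, ← hx1] at f4
    have f3 := (FEm hD hM hab (hw x1 m1)).2.2.1
    rw [← f4, map_zero, ← hx2] at f3
    have f2 := (FEm hD hM hab (hw x2 m2)).2.1
    rw [← f3, map_zero, ← hx3] at f2
    have f1 := (FEm hD hM hab (hw x3 m3)).1
    rw [← f2, map_zero] at f1
    -- `K (K-2) (K-6) (K-12) f = 0`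
    have hcomm : ∀ (c : ℂ) (v : ρ.Sp), Kp ρ D a b (Kp ρ D a b v - c • v) =
        Kp ρ D a b (Kp ρ D a b v) - c • Kp ρ D a b v := by
      intro c v
      rw [map_sub, map_smul]
    -- `y = K x2`, `K y = 2 y`
    have g1 : Kp ρ D a b x2 = 0 := by
      refine no_par hD hP hab (hK _ m2) (Or.inl ?_)
      rw [hx3, hcomm] at f1
      exact sub_eq_zero.1 f1.symm
    -- `(K - 12) (K (K - 6) f) = 0`
    have g2 : Kp ρ D a b (Kp ρ D a b f - (6 : ℂ) • f) = 0 := by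
      refine no_par hD hP hab (hK _ ((VS ρ a b).sub_mem (hK f hfV)
        ((VS ρ a b).smul_mem _ hfV))) (Or.inr ?_)
      rw [hx2, hx1] at g1
      simp only [map_sub, map_smul] at g1 ⊢
      have : Kp ρ D a b (Kp ρ D a b (Kp ρ D a b f)) - (6 : ℂ) • Kp ρ D a b (Kp ρ D a b f) -
          (12 : ℂ) • (Kp ρ D a b (Kp ρ D a b f) - (6 : ℂ) • Kp ρ D a b f) = 0 := by
        rw [← g1]
        module
      exact sub_eq_zero.1 this
    have m5 : Kp ρ D a b f - (6 : ℂ) • f ∈ VS ρ a b :=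
      (VS ρ a b).sub_mem (hK f hfV) ((VS ρ a b).smul_mem _ hfV)
    have g3 := K_zero hD (hw _ m5) g2
    rw [map_sub, map_smul, P_Kp hD, zero_sub] at g3
    rw [smul_sub, sub_eq_add_neg ((6 : ℂ) • f), g3]
    abel

end Pool.Agent.GRA.H09
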